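import Mathlib
import Pool.Agent.TH407.MV.Defs
set_option autoImplicit false

/-!
# Densities on the whole unit sphere of `ℝ³` of bounded variation along the meridians

The zone `|x₃| ≤ 1/2` of the sphere, in the coordinates longitude `θ` and height `h = x₃`.
Definitions and the statements of the intermediate results.
-/

namespace Pool.Agent.TH407.MZ

open MeasureTheory Set Complex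
open scoped ENNReal NNReal Real ComplexConjugate
open Pool.Agent.TH407.MV (chi wv dt AC)

/-- a smooth even cut-off: `1` on `[-1/2, 1/2]`, `0` off `[-3/4, 3/4]` -/
noncomputable def etz (h : ℝ) : ℝ :=
  Real.smoothTransition (3 - 4 * h) * Real.smoothTransition (3 + 4 * h)

/-- the kernel of the zone -/
noncomputable def KZ (t w : ℝ) : ℂ :=
  ∫ h : ℝ, (etz h : ℂ) * cexp (-(I * ((√(1 - h ^ 2) * w + h * t : ℝ) : ℂ)))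

/-- the measure `ds dθ` on `ℝ × (-π, π)` -/
noncomputable def mZ : Measure (ℝ × ℝ) :=
  (volume : Measure ℝ).prod ((volume : Measure ℝ).restrict (Ioo (-π) π))

/-- the extension operator of the zone; the height is `h = s - 1/2` -/
noncomputable def EZ (a : ℝ → ℝ → ℂ) (X : ℝ × ℝ) (t : ℝ) : ℂ :=
  ∫ p : ℝ × ℝ, cexp (-(I * ((√(1 - (p.1 - 1 / 2) ^ 2) * dt X p.2 + (p.1 - 1 / 2) * t : ℝ) : ℂ))) *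
    ((etz (p.1 - 1 / 2) : ℂ) * a p.1 p.2) ∂mZ

/-- `1 + |X₁| + |X₂| + |t|` -/
noncomputable def nz (ξ : (ℝ × ℝ) × ℝ) : ℝ := 1 + |ξ.1.1| + |ξ.1.2| + |ξ.2|

/-- the phase function `√(y² + ε²)` -/
noncomputable def phz (ε y : ℝ) : ℝ := √(y ^ 2 + ε ^ 2)

/-- `|x₁ + x₂ - x₃ - x₄| + κ |x₁ x₂ - x₃ x₄|` -/
noncomputable def dK (κ x1 x2 x3 x4 : ℝ) : ℝ := |x1 + x2 - x3 - x4| + κ * |x1 * x2 - x3 * x4|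

/-- the oscillatory integral operator in projective coordinates -/
noncomputable def TTz (A : ℝ → ℂ) (δ ε t : ℝ) (G : ℝ → ℂ) (y : ℝ × ℝ) : ℂ :=
  ∫ x : ℝ, cexp (I * ((t * phz ε (wv δ y x) : ℝ) : ℂ)) * (A (wv δ y x) * G x)

/-- a smooth cut-off: `1` for `y ≤ 1`, `0` for `2 ≤ y` -/
noncomputable def czz (y : ℝ) : ℝ := Real.smoothTransition (2 - y)

/-- a smooth function supported in `[1/2, 2]` -/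
noncomputable def psz (y : ℝ) : ℝ := czz y - czz (2 * y)

/-- J1: the kernel bound near a point -/
def LocKz : Prop :=
  ∀ a0 b0 δ0 ε0 : ℝ, 0 < a0 → (b0 ≠ 0 ∨ δ0 ≠ 0) → ∃ r C : ℝ, 0 < r ∧ r ≤ 1 ∧ 0 < C ∧
    ∀ δ ε t : ℝ, |δ - δ0| ≤ r → |ε - ε0| ≤ r → 1 ≤ t → ∀ A : ℝ → ℂ, AC A →
      ∀ x1 x2 x3 x4 : ℝ, |x1| ≤ r → |x2| ≤ r → |x3| ≤ r → |x4| ≤ r →
      ‖∫ y : ℝ × ℝ, ((chi ((y.1 - a0) / r) * chi ((y.2 - b0) / r) : ℝ) : ℂ) *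
        (A (wv δ y x1) * A (wv δ y x2) * conj (A (wv δ y x3)) * conj (A (wv δ y x4))) *
        cexp (I * ((t * (phz ε (wv δ y x1) + phz ε (wv δ y x2) - phz ε (wv δ y x3) -
          phz ε (wv δ y x4)) : ℝ) : ℂ))‖ ≤ C / (1 + t * dK (ε ^ 2 + δ ^ 2) x1 x2 x3 x4) ^ 2

/-- J2: the positive kernel -/
def Schurz : Prop :=
  ∃ C : ℝ≥0, ∀ (t κ : ℝ) (g : ℝ → ℝ≥0∞) (B : ℝ≥0), 1 ≤ t → 0 < κ → Measurable g →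
    (∀ x, x ∉ Icc (-1 : ℝ) 1 → g x = 0) → (∀ x, g x ≤ B) →
    ∫⁻ x1, ∫⁻ x2, ∫⁻ x3, ∫⁻ x4, g x1 * g x2 * g x3 * g x4 *
      ENNReal.ofReal (1 / (1 + t * dK κ x1 x2 x3 x4) ^ 2) ≤
      C * ENNReal.ofReal ((1 + κ) * (1 + Real.log t) ^ 2 / (t ^ 2 * κ)) * B ^ 2 * ∫⁻ x, g x ^ 2

/-- J3: the local `L⁴` bound near a point -/
def LocL4z : Prop :=
  ∀ a0 b0 δ0 ε0 : ℝ, 0 < a0 → (b0 ≠ 0 ∨ δ0 ≠ 0) → ∃ (r : ℝ) (C : ℝ≥0), 0 < r ∧ r ≤ 1 ∧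
    ∀ δ ε t : ℝ, |δ - δ0| ≤ r → |ε - ε0| ≤ r → 1 ≤ t → 0 < ε ^ 2 + δ ^ 2 → ∀ A : ℝ → ℂ, AC A →
      ∀ (G : ℝ → ℂ) (B : ℝ≥0), Measurable G → (∀ x, r < |x| → G x = 0) → (∀ x, ‖G x‖ₑ ≤ B) →
      ∫⁻ y in {y : ℝ × ℝ | |y.1 - a0| ≤ r ∧ |y.2 - b0| ≤ r}, ‖TTz A δ ε t G y‖ₑ ^ 4 ≤
        C * ENNReal.ofReal ((1 + Real.log t) ^ 2 / (t ^ 2 * (ε ^ 2 + δ ^ 2))) * B ^ 2 *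
          ∫⁻ x, ‖G x‖ₑ ^ 2

/-- J4: the `L⁴` bound on compact sets of parameters -/
def CompL4z : Prop :=
  ∀ Y1 Y2 b1 c0 A0 : ℝ, 0 < Y1 → 0 < c0 → ∃ (r : ℝ) (C : ℝ≥0), 0 < r ∧ r ≤ 1 ∧
    ∀ δ ε t : ℝ, 0 < δ → δ ≤ 1 → 0 ≤ ε → ε ≤ A0 → 1 ≤ t → ∀ A : ℝ → ℂ, AC A →
      ∀ (G : ℝ → ℂ) (B : ℝ≥0), Measurable G → (∀ x, r < |x| → G x = 0) → (∀ x, ‖G x‖ₑ ≤ B) →
      ∫⁻ y in {y : ℝ × ℝ | Y1 ≤ y.1 ∧ y.1 ≤ Y2 ∧ |y.2| ≤ b1 ∧ c0 ≤ y.2 ^ 2 + δ ^ 2},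
        ‖TTz A δ ε t G y‖ₑ ^ 4 ≤
        C * ENNReal.ofReal ((1 + Real.log t) ^ 2 / (t ^ 2 * (ε ^ 2 + δ ^ 2))) * B ^ 2 *
          ∫⁻ x, ‖G x‖ₑ ^ 2

/-- the shell `2 ^ j / 2 ≤ |y| < 2 ^ (j + 1) / 2` -/
def shl (j : ℕ) : Set (ℝ × ℝ) := {y : ℝ × ℝ | 4 ^ j ≤ 4 * AR.sq y ∧ 4 * AR.sq y < 4 ^ (j + 1)}

/-- J5: the planar `L⁴` bound on a dyadic shell -/
def MainZ : Prop :=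
  ∃ C : ℝ≥0, ∀ ε t : ℝ, 0 ≤ ε → ε ≤ 8 → 1 ≤ t →
    ∀ A : ℝ → ℂ, AC A → (∀ y, y ∉ Icc (1 / 2 : ℝ) 2 → A y = 0) →
      ∀ (g : ℝ → ℂ) (B : ℝ≥0), Measurable g → (∀ θ, ‖g θ‖ₑ ≤ B) → ∀ j : ℕ,
      ∫⁻ y in shl j, ‖∫ θ in Ioo (-π) π, cexp (I * ((t * phz ε (dt y θ) : ℝ) : ℂ)) *
        (A (dt y θ) * g θ)‖ₑ ^ 4 ≤
        C * ENNReal.ofReal ((1 + Real.log t) ^ 2 / (t ^ 2 * (1 + 4 ^ j * ε ^ 2))) * B ^ 2 *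
          ∫⁻ θ in Ioo (-π) π, ‖g θ‖ₑ ^ 2

/-- J6: stationary phase for the kernel of the zone -/
def StatZ : Prop :=
  ∃ C : ℝ, 0 < C ∧ ∀ μ t : ℝ, 1 ≤ μ → |t| ≤ 8 * μ →
    ∃ A : ℝ → ℂ, AC A ∧ (∀ y, y ∉ Icc (1 / 2 : ℝ) 2 → A y = 0) ∧
      ∀ y, KZ t (μ * y) * (psz y : ℂ) = ((C * μ ^ (-(1 / 2) : ℝ) : ℝ) : ℂ) *
        (cexp (-(I * ((μ * phz (t / μ) y : ℝ) : ℂ))) * A y)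

/-- J7: non-stationary phase for the kernel of the zone -/
def NonZ : Prop :=
  ∃ C : ℝ, 0 < C ∧ (∀ t w : ℝ, ‖KZ t w‖ ≤ C) ∧
    ∀ t w : ℝ, 3 * |w| ≤ |t| → ‖KZ t w‖ ≤ C / (1 + |t|)

/-- J8: the trivial `L⁴` bound -/
def TrivZ : Prop :=
  ∃ C : ℝ≥0, ∀ k : ℝ → ℂ, Measurable k → (∀ w, ‖k w‖ ≤ 1) → (∀ w, 2 < |w| → k w = 0) →
    ∀ (g : ℝ → ℂ) (B : ℝ≥0), Measurable g → (∀ θ, ‖g θ‖ₑ ≤ B) →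
      (∫⁻ y in {y : ℝ × ℝ | 4 * AR.sq y < 1}, ‖∫ θ in Ioo (-π) π, k (dt y θ) * g θ‖ₑ ^ 4 ≤
        C * B ^ 2 * ∫⁻ θ in Ioo (-π) π, ‖g θ‖ₑ ^ 2) ∧
      ∀ j : ℕ, ∫⁻ y in shl j, ‖∫ θ in Ioo (-π) π, k (dt y θ) * g θ‖ₑ ^ 4 ≤
        C * ENNReal.ofReal ((4 ^ j)⁻¹) * B ^ 2 * ∫⁻ θ in Ioo (-π) π, ‖g θ‖ₑ ^ 2

/-- J9: space-time `L⁴` bound for functions of the longitude -/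
def AllZ : Prop :=
  ∀ δ : ℝ, 0 < δ → δ ≤ 1 / 2 → ∃ C : ℝ≥0, ∀ (g : ℝ → ℂ) (B : ℝ≥0), Measurable g →
    (∀ θ, ‖g θ‖ₑ ≤ B) → ∀ l : ℝ, 1 ≤ l →
    ∫⁻ ξ in {ξ : (ℝ × ℝ) × ℝ | l / 2 ≤ nz ξ ∧ nz ξ ≤ 4 * l},
      ‖∫ θ in Ioo (-π) π, KZ ξ.2 (dt ξ.1 θ) * g θ‖ₑ ^ 4 ≤
      C * ENNReal.ofReal (l ^ (-1 + δ)) * B ^ 2 * ∫⁻ θ in Ioo (-π) π, ‖g θ‖ₑ ^ 2

/-- J10: `L²` and sup bounds -/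
def BallZ : Prop :=
  ∃ C : ℝ≥0, ∀ b : ℝ → ℝ → ℂ, Measurable (Function.uncurry b) →
    ∫⁻ s : ℝ, ∫⁻ θ in Ioo (-π) π, ‖b s θ‖ₑ ^ 2 ≠ ∞ →
    Integrable (fun p : ℝ × ℝ => (etz (p.1 - 1 / 2) : ℂ) * b p.1 p.2) mZ ∧
    (∀ X t, ‖EZ b X t‖ₑ ^ 2 ≤ C * ∫⁻ s : ℝ, ∫⁻ θ in Ioo (-π) π, ‖b s θ‖ₑ ^ 2) ∧
    ∀ l : ℝ, 1 ≤ l → ∫⁻ ξ in {ξ : (ℝ × ℝ) × ℝ | nz ξ ≤ l}, ‖EZ b ξ.1 ξ.2‖ₑ ^ 2 ≤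
      C * ENNReal.ofReal l * ∫⁻ s : ℝ, ∫⁻ θ in Ioo (-π) π, ‖b s θ‖ₑ ^ 2

/-- J11: `L⁴` bound for the low frequency part -/
def LowZ : Prop :=
  ∀ δ : ℝ, 0 < δ → δ ≤ 1 / 2 → ∃ C : ℝ≥0, ∀ (a : ℝ → ℝ → ℂ) (M : ℝ → ℝ≥0) (B : ℝ≥0),
    AR.Adm a M → (∀ θ, M θ ≤ B) → ∀ l : ℝ, 1 ≤ l →
    ∫⁻ ξ in {ξ : (ℝ × ℝ) × ℝ | l ≤ nz ξ ∧ nz ξ ≤ 2 * l}, ‖EZ (AR.aT a (l / 2)) ξ.1 ξ.2‖ₑ ^ 4 ≤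
      C * ENNReal.ofReal (l ^ (-1 + δ)) * B ^ 2 * ∫⁻ θ in Ioo (-π) π, (M θ : ℝ≥0∞) ^ 2

/-- J12: the restricted estimate -/
def RestrZ : Prop :=
  ∀ q : ℝ, 3 < q → ∃ C : ℝ≥0, ∀ (a : ℝ → ℝ → ℂ) (M : ℝ → ℝ≥0) (B : ℝ≥0), AR.Adm a M →
    (∀ θ, M θ ≤ B) →
    ∫⁻ ξ : (ℝ × ℝ) × ℝ, ‖EZ a ξ.1 ξ.2‖ₑ ^ q ≤
      C * (B : ℝ≥0∞) ^ (q - 2) * ∫⁻ θ in Ioo (-π) π, (M θ : ℝ≥0∞) ^ 2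

/-- J13: the strong estimate -/
def StrongZ : Prop :=
  ∀ q : ℝ, 3 < q → ∃ C : ℝ≥0, ∀ (a : ℝ → ℝ → ℂ) (M : ℝ → ℝ≥0), AR.Adm a M →
    ∫⁻ ξ : (ℝ × ℝ) × ℝ, ‖EZ a ξ.1 ξ.2‖ₑ ^ q ≤ C * ∫⁻ θ in Ioo (-π) π, (M θ : ℝ≥0∞) ^ q

end Pool.Agent.TH407.MZ
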