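import Mathlib
import Pool.Agent.TH407.MV.S3
set_option autoImplicit false

/-! Height and longitude on the unit sphere. -/

namespace Pool.Agent.TH407.MZ

open MeasureTheory Set Complex Metric
open scoped ENNReal NNReal Real
open Pool.Agent.TH277.CS (E3 sigma)
open Pool.Agent.TH407.MV (nrm e3p)

/-- the point of the sphere with height `h` and longitude `θ` (for `-1 ≤ h ≤ 1`) -/
noncomputable def Pz (h θ : ℝ) : sphere (0 : E3) 1 :=
  nrm e3p (WithLp.toLp 2 ![√(1 - h ^ 2) * Real.cos θ, √(1 - h ^ 2) * Real.sin θ, h])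

/-- the surface measure is `dh dθ` -/
def CylZ : Prop :=
  Measurable (fun p : ℝ × ℝ => Pz p.1 p.2) ∧
    Measure.map (fun p : ℝ × ℝ => Pz p.1 p.2)
      (((volume : Measure ℝ).restrict (Ioo (-1 : ℝ) 1)).prod
        ((volume : Measure ℝ).restrict (Ioo (-π) π))) = sigma

lemma Pz_coe {h : ℝ} (hh : h ^ 2 ≤ 1) (θ : ℝ) : (Pz h θ : E3) =
    WithLp.toLp 2 ![√(1 - h ^ 2) * Real.cos θ, √(1 - h ^ 2) * Real.sin θ, h] := by
  set y : E3 := WithLp.toLp 2 ![√(1 - h ^ 2) * Real.cos θ, √(1 - h ^ 2) * Real.sin θ, h] with hy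
  have hn : ‖y‖ = 1 := by
    rw [EuclideanSpace.norm_eq, Fin.sum_univ_three]
    have e0 : y 0 = √(1 - h ^ 2) * Real.cos θ := rfl
    have e1 : y 1 = √(1 - h ^ 2) * Real.sin θ := rfl
    have e2 : y 2 = h := rfl
    have h1 : √(1 - h ^ 2) ^ 2 = 1 - h ^ 2 := Real.sq_sqrt (by linarith)
    simp only [Real.norm_eq_abs, sq_abs, e0, e1, e2]
    rw [mul_pow, mul_pow, h1, Real.sqrt_eq_one]
    nlinarith [Real.sin_sq_add_cos_sq θ]
  have hy0 : y ≠ 0 := by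
    intro h
    rw [h, norm_zero] at hn
    exact zero_ne_one hn
  show (nrm e3p y : E3) = y
  unfold nrm
  rw [dif_neg hy0]
  show ‖y‖⁻¹ • y = y
  rw [hn, inv_one, one_smul]

lemma Pz_0 {h : ℝ} (hh : h ^ 2 ≤ 1) (θ : ℝ) : (Pz h θ : E3) 0 = √(1 - h ^ 2) * Real.cos θ := by
  rw [Pz_coe hh]; rfl

lemma Pz_1 {h : ℝ} (hh : h ^ 2 ≤ 1) (θ : ℝ) : (Pz h θ : E3) 1 = √(1 - h ^ 2) * Real.sin θ := by
  rw [Pz_coe hh]; rfl

lemma Pz_2 {h : ℝ} (hh : h ^ 2 ≤ 1) (θ : ℝ) : (Pz h θ : E3) 2 = h := by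
  rw [Pz_coe hh]; rfl

end Pool.Agent.TH407.MZ
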