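import Mathlib
import Pool.Agent.TH407.MZ.CylDefs
import Pool.Agent.TH407.MV.All
import Pool.Agent.TH370.VR.Shell
set_option autoImplicit false

/-! The caps `|x₃| > 1/2` in height and longitude. -/

namespace Pool.Agent.TH407.MZ

open MeasureTheory Set Complex Metric
open scoped ENNReal NNReal Real RealInnerProductSpace
open Pool.Agent.TH277.CS (E3 sigma L L_le)
open Pool.Agent.TH407.MV (nrm e3p mer mer_sph sph sph_0 sph_1 sph_2 nv nv_pos nv_sq rs rs_meas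
  rs_coe e3p_inner)

/-- the longitude -/
noncomputable def lon (x : sphere (0 : E3) 1) : ℝ := AR.ang ((x : E3) 0, (x : E3) 1)

lemma coord_meas (i : Fin 3) : Measurable fun x : sphere (0 : E3) 1 => (x : E3) i := by
  have h : Measurable fun x : E3 => x i := by fun_prop
  exact h.comp measurable_subtype_coe

lemma lon_meas : Measurable lon :=
  AR.ang_meas.comp ((coord_meas 0).prodMk (coord_meas 1))

lemma sq_lt_one {h : ℝ} (hh : h ∈ Ioo (-1 : ℝ) 1) : h ^ 2 < 1 := by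
  nlinarith [hh.1, hh.2]

lemma lon_Pz {h θ : ℝ} (hh : h ∈ Ioo (-1 : ℝ) 1) (hθ : θ ∈ Ioo (-π) π) : lon (Pz h θ) = θ := by
  unfold lon
  have h1 := sq_lt_one hh
  rw [Pz_0 h1.le, Pz_1 h1.le]
  exact AR.ang_pol (Real.sqrt_pos.2 (by linarith)) hθ

/-- the good points: off a half meridian plane -/
def gd : Set (sphere (0 : E3) 1) := {x | 0 < (x : E3) 0 ∨ (x : E3) 1 ≠ 0}

lemma gd_meas : MeasurableSet gd := by
  have h1 : MeasurableSet {x : sphere (0 : E3) 1 | 0 < (x : E3) 0} :=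
    measurableSet_lt measurable_const (coord_meas 0)
  have h2 : MeasurableSet {x : sphere (0 : E3) 1 | (x : E3) 1 = 0} :=
    measurableSet_eq_fun (coord_meas 1) measurable_const
  exact h1.union h2.compl

lemma Pz_gd {h θ : ℝ} (hh : h ∈ Ioo (-1 : ℝ) 1) (hθ : θ ∈ Ioo (-π) π) : Pz h θ ∈ gd := by
  have h1 := sq_lt_one hh
  have h2 : 0 < √(1 - h ^ 2) := Real.sqrt_pos.2 (by linarith)
  show 0 < (Pz h θ : E3) 0 ∨ (Pz h θ : E3) 1 ≠ 0
  rw [Pz_0 h1.le, Pz_1 h1.le]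
  by_cases h3 : Real.sin θ = 0
  · left
    have h4 : θ = 0 := by
      rwa [Real.sin_eq_zero_iff_of_lt_of_lt hθ.1 hθ.2] at h3
    rw [h4, Real.cos_zero, mul_one]
    exact h2
  · right
    exact mul_ne_zero h2.ne' h3

lemma sum_sq (x : sphere (0 : E3) 1) :
    (x : E3) 0 ^ 2 + (x : E3) 1 ^ 2 + (x : E3) 2 ^ 2 = 1 := by
  have h1 : ‖(x : E3)‖ ^ 2 = 1 := by rw [mem_sphere_zero_iff_norm.1 x.2, one_pow]
  rw [EuclideanSpace.real_norm_sq_eq, Fin.sum_univ_three] at h1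
  exact h1

lemma Pz_lon {x : sphere (0 : E3) 1} (hx : x ∈ gd) :
    (x : E3) 2 ∈ Ioo (-1 : ℝ) 1 ∧ lon x ∈ Ioo (-π) π ∧ Pz ((x : E3) 2) (lon x) = x := by
  have hs := sum_sq x
  have h1 : ((x : E3) 0, (x : E3) 1) ∈ polarCoord.source := by
    rw [polarCoord_source]
    exact hx
  have h2 := polarCoord.map_source h1
  rw [polarCoord_target] at h2
  have h3 : 0 < (polarCoord ((x : E3) 0, (x : E3) 1)).1 := h2.1
  have h4 : (polarCoord ((x : E3) 0, (x : E3) 1)).1 = √((x : E3) 0 ^ 2 + (x : E3) 1 ^ 2) := by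
    rw [polarCoord_apply]
  have h5 : (x : E3) 0 ^ 2 + (x : E3) 1 ^ 2 = 1 - (x : E3) 2 ^ 2 := by linarith
  have h6 : 0 < 1 - (x : E3) 2 ^ 2 := by
    rw [h4, h5] at h3
    exact Real.sqrt_pos.1 h3
  have h7 := polarCoord.left_inv h1
  rw [polarCoord_symm_apply, h4, h5] at h7
  have h8 : (polarCoord ((x : E3) 0, (x : E3) 1)).2 = lon x := rfl
  rw [h8] at h7
  have h9 : (x : E3) 2 ∈ Ioo (-1 : ℝ) 1 := by
    have := abs_lt_of_sq_lt_sq' (by linarith : (x : E3) 2 ^ 2 < 1 ^ 2) zero_le_one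
    exact this
  refine ⟨h9, h2.2, ?_⟩
  apply Subtype.ext
  have h10 : (x : E3) 2 ^ 2 ≤ 1 := by linarith
  ext i
  fin_cases i
  · show (Pz ((x : E3) 2) (lon x) : E3) 0 = (x : E3) 0
    rw [Pz_0 h10]
    exact congrArg Prod.fst h7
  · show (Pz ((x : E3) 2) (lon x) : E3) 1 = (x : E3) 1
    rw [Pz_1 h10]
    exact congrArg Prod.snd h7
  · show (Pz ((x : E3) 2) (lon x) : E3) 2 = (x : E3) 2
    rw [Pz_2 h10]

/-- the height in terms of the gnomonic radius -/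
noncomputable def hh (ρ : ℝ) : ℝ := (√(1 + ρ ^ 2))⁻¹

lemma hh_pos (ρ : ℝ) : 0 < hh ρ := inv_pos.2 (Real.sqrt_pos.2 (by positivity))

lemma hh_sq (ρ : ℝ) : hh ρ ^ 2 = (1 + ρ ^ 2)⁻¹ := by
  unfold hh
  rw [inv_pow, Real.sq_sqrt (by positivity)]

lemma hh_le (ρ : ℝ) : hh ρ ≤ 1 := by
  have h1 := hh_sq ρ
  have h2 : (1 + ρ ^ 2)⁻¹ ≤ 1 := inv_le_one_of_one_le₀ (by nlinarith [sq_nonneg ρ])
  have h3 := hh_pos ρ
  nlinarith

lemma hh_lt {ρ : ℝ} (hρ : ρ ≠ 0) : hh ρ < 1 := by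
  have h1 := hh_sq ρ
  have h0 : 0 < ρ ^ 2 := by positivity
  have h2 : (1 + ρ ^ 2)⁻¹ < 1 := inv_lt_one_of_one_lt₀ (by linarith)
  have h3 := hh_pos ρ
  nlinarith

lemma hh_anti {a b : ℝ} (ha : 0 ≤ a) (hab : a ≤ b) : hh b ≤ hh a := by
  unfold hh
  apply inv_anti₀ (Real.sqrt_pos.2 (by positivity))
  apply Real.sqrt_le_sqrt
  nlinarith

lemma sph_pol {ρ : ℝ} (hρ : 0 ≤ ρ) (θ : ℝ) : sph (AR.pol ρ θ) = Pz (hh ρ) θ := by
  have h1 : nv (AR.pol ρ θ) = √(1 + ρ ^ 2) := by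
    unfold MV.nv
    rw [AR.sq_pol]
  have h2 : hh ρ ^ 2 ≤ 1 := by
    have := hh_le ρ
    have := hh_pos ρ
    nlinarith
  have h3 : √(1 - hh ρ ^ 2) = (√(1 + ρ ^ 2))⁻¹ * ρ := by
    rw [hh_sq, show 1 - (1 + ρ ^ 2)⁻¹ = (1 + ρ ^ 2)⁻¹ * ρ ^ 2 by field_simp; ring,
      Real.sqrt_mul (by positivity), Real.sqrt_sq hρ, Real.sqrt_inv]
  apply Subtype.ext
  ext i
  fin_cases i
  · show (sph (AR.pol ρ θ) : E3) 0 = (Pz (hh ρ) θ : E3) 0
    rw [Pz_0 h2, sph_0, h1, h3]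
    unfold AR.pol
    ring
  · show (sph (AR.pol ρ θ) : E3) 1 = (Pz (hh ρ) θ : E3) 1
    rw [Pz_1 h2, sph_1, h1, h3]
    unfold AR.pol
    ring
  · show (sph (AR.pol ρ θ) : E3) 2 = (Pz (hh ρ) θ : E3) 2
    rw [Pz_2 h2, sph_2, h1]
    rfl

lemma hh_inv {h : ℝ} (h0 : 0 < h) (h1 : h < 1) : hh (√(1 - h ^ 2) / h) = h := by
  have h2 : h ^ 2 < 1 := by nlinarith
  unfold hh
  rw [div_pow, Real.sq_sqrt (by linarith)]
  have e : 1 + (1 - h ^ 2) / h ^ 2 = (h⁻¹) ^ 2 := by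
    field_simp
    ring
  rw [e, Real.sqrt_sq (by positivity), inv_inv]

/-- `1 - (1 - |h|) / 16` -/
noncomputable def rr (h : ℝ) : ℝ := 1 - (1 - |h|) / 16

lemma rr_lt {h : ℝ} (hh : h ∈ Ioo (-1 : ℝ) 1) : rr h < 1 := by
  have h1 : |h| < 1 := abs_lt.2 hh
  unfold rr
  linarith

lemma le_rr {h : ℝ} (hh : h ∈ Ioo (-1 : ℝ) 1) : |h| ≤ rr h := by
  have h1 : |h| < 1 := abs_lt.2 hh
  unfold rr
  linarith

lemma half_le_rr (h : ℝ) : 15 / 16 ≤ rr h := by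
  unfold rr
  linarith [abs_nonneg h]

lemma mem_rr {h : ℝ} (hh : h ∈ Ioo (-1 : ℝ) 1) : h ∈ Icc (-rr h) (rr h) :=
  abs_le.1 (le_rr hh)

/-- the hypothesis: bounded variation along the meridians -/
structure BVM (g : sphere (0 : E3) 1 → ℂ) (M : ℝ → ℝ → ℝ≥0∞) : Prop where
  mg : Measurable g
  mM : Measurable (Function.uncurry M)
  bd : ∀ θ ∈ Ioo (-π) π, ∀ h ∈ Ioo (-1 : ℝ) 1,
    ‖g (Pz h θ)‖ₑ + eVariationOn (fun s => g (Pz s θ)) (Icc (-rr h) (rr h)) ≤ M h θ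

/-- the sup bound on the arc -/
lemma BVM.sup {g : sphere (0 : E3) 1 → ℂ} {M : ℝ → ℝ → ℝ≥0∞} (hb : BVM g M) {θ h s : ℝ}
    (hθ : θ ∈ Ioo (-π) π) (hh : h ∈ Ioo (-1 : ℝ) 1) (hs : s ∈ Icc (-rr h) (rr h)) :
    ‖g (Pz s θ)‖ₑ ≤ M h θ := by
  have h1 := eVariationOn.edist_le (fun s => g (Pz s θ)) hs (mem_rr hh)
  rw [edist_eq_enorm_sub] at h1
  calc ‖g (Pz s θ)‖ₑ = ‖g (Pz h θ) + (g (Pz s θ) - g (Pz h θ))‖ₑ := by congr 1; ring
    _ ≤ ‖g (Pz h θ)‖ₑ + ‖g (Pz s θ) - g (Pz h θ)‖ₑ := enorm_add_le _ _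
    _ ≤ _ := (add_le_add le_rfl h1).trans (hb.bd θ hθ h hh)

open Classical in
/-- the part in the northern cap -/
noncomputable def gN (g : sphere (0 : E3) 1 → ℂ) (x : sphere (0 : E3) 1) : ℂ :=
  if 1 / 2 < (x : E3) 2 then g x else 0

lemma gN_meas {g : sphere (0 : E3) 1 → ℂ} (hg : Measurable g) : Measurable (gN g) := by
  unfold gN
  exact Measurable.ite (measurableSet_lt measurable_const (coord_meas 2)) hg measurable_const

open Classical in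
/-- the majorant in the cap -/
noncomputable def MC (M : ℝ → ℝ → ℝ≥0∞) (x : sphere (0 : E3) 1) : ℝ≥0∞ :=
  if x ∈ gd then 4 * M ((x : E3) 2) (lon x) else ∞

lemma MC_meas {M : ℝ → ℝ → ℝ≥0∞} (hM : Measurable (Function.uncurry M)) : Measurable (MC M) := by
  unfold MC
  exact Measurable.ite gd_meas
    ((hM.comp ((coord_meas 2).prodMk lon_meas)).const_mul 4) measurable_const

lemma hh_quarter {ρ : ℝ} (hρ : 0 ≤ ρ) : hh (1 / 4 * ρ) ≤ 1 - (1 - hh ρ) / 16 := by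
  set a := hh ρ with ha
  set b := hh (1 / 4 * ρ) with hb
  have ha0 : 0 < a := hh_pos _
  have hb0 : 0 < b := hh_pos _
  have ha1 : a ≤ 1 := hh_le _
  have hb1 : b ≤ 1 := hh_le _
  have hab : a ≤ b := hh_anti (by positivity) (by linarith)
  have e1 : a ^ 2 * (1 + ρ ^ 2) = 1 := by
    rw [ha, hh_sq, inv_mul_cancel₀]
    positivity
  have e2 : b ^ 2 * (1 + (1 / 4 * ρ) ^ 2) = 1 := by
    rw [hb, hh_sq, inv_mul_cancel₀]
    positivity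
  -- `(1 - a²) / a² = ρ²`, `(1 - b²) / b² = ρ² / 16`
  have e3 : 16 * (1 - b ^ 2) * a ^ 2 = (1 - a ^ 2) * b ^ 2 := by
    have h1 : a ^ 2 * ρ ^ 2 = 1 - a ^ 2 := by linarith
    have h2 : b ^ 2 * ρ ^ 2 = 16 * (1 - b ^ 2) := by linarith
    calc 16 * (1 - b ^ 2) * a ^ 2 = b ^ 2 * ρ ^ 2 * a ^ 2 := by rw [h2]
      _ = (a ^ 2 * ρ ^ 2) * b ^ 2 := by ring
      _ = _ := by rw [h1]
  -- `16 (1 - b) (1 + b) a² = (1 - a) (1 + a) b²` and `(1 + b) a² ≤ (1 + a) b²`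
  have e4 : (1 + b) * a ^ 2 ≤ (1 + a) * b ^ 2 := by nlinarith [mul_pos ha0 hb0]
  have e5 : (1 - a) * ((1 + a) * b ^ 2) ≤ 16 * (1 - b) * ((1 + a) * b ^ 2) := by
    calc (1 - a) * ((1 + a) * b ^ 2) = 16 * (1 - b) * ((1 + b) * a ^ 2) := by linarith [e3]
      _ ≤ _ := mul_le_mul_of_nonneg_left e4 (by linarith)
  have e6 : 0 < (1 + a) * b ^ 2 := by positivity
  have e7 : 1 - a ≤ 16 * (1 - b) := le_of_mul_le_mul_right e5 e6
  linarith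

lemma north_var {g : sphere (0 : E3) 1 → ℂ} {M : ℝ → ℝ → ℝ≥0∞} (hb : BVM g M)
    (x : sphere (0 : E3) 1) (hx : 0 < (x : E3) 2) :
    ‖gN g x‖ₑ + eVariationOn (fun s => gN g (mer e3p x s)) (Icc (1 / 4) 1) ≤ MC M x := by
  classical
  by_cases hgd : x ∈ gd
  swap
  · unfold MC
    rw [if_neg hgd]
    exact le_top
  obtain ⟨hx1, hθ, hPx⟩ := Pz_lon hgd
  set θ := lon x with hθdef
  set h0 := (x : E3) 2 with hh0
  unfold MC
  rw [if_pos hgd, ← hθdef, ← hh0]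
  by_cases hMt : M h0 θ = ∞
  · rw [hMt, ENNReal.mul_top (by norm_num)]
    exact le_top
  set m : ℝ≥0 := (M h0 θ).toNNReal with hm
  have hmM : (m : ℝ≥0∞) = M h0 θ := ENNReal.coe_toNNReal hMt
  set ρ : ℝ := √(1 - h0 ^ 2) / h0 with hρ
  have hsq : h0 ^ 2 < 1 := sq_lt_one hx1
  have hρ0 : 0 < ρ := div_pos (Real.sqrt_pos.2 (by linarith)) hx
  have hρh : hh ρ = h0 := hh_inv hx hx1.2
  have hx' : x = sph (AR.pol ρ θ) := by
    rw [sph_pol hρ0.le, hρh, hPx]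
  have hmer : ∀ s : ℝ, 0 ≤ s → mer e3p x s = Pz (hh (s * ρ)) θ := by
    intro s hs
    rw [hx', mer_sph, AR.smul_pol, sph_pol (by positivity)]
  set b : ℝ := hh (1 / 4 * ρ) with hbdef
  have hbr : b ≤ rr h0 := by
    have := hh_quarter hρ0.le
    rw [hρh] at this
    unfold rr
    rw [abs_of_pos hx]
    exact this
  set φ : ℝ → ℂ := fun h => g (Pz h θ) with hφ
  have hsub : Ioc (1 / 2 : ℝ) b ⊆ Icc (-rr h0) (rr h0) := fun h hh =>
    ⟨by linarith [hh.1, half_le_rr h0], by linarith [hh.2]⟩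
  have h1 : ∀ s ∈ Ioc (1 / 2 : ℝ) b, ‖φ s‖ₑ ≤ m := by
    intro s hs
    rw [hmM]
    exact hb.sup hθ hx1 (hsub hs)
  have h2 : eVariationOn φ (Ioc (1 / 2 : ℝ) b) ≤ m := by
    rw [hmM]
    exact (eVariationOn.mono φ hsub).trans (le_add_self.trans (hb.bd θ hθ h0 hx1))
  have h3 := Pool.Agent.TH370.VR.eVariationOn_trunc h1 h2
  set ψ : ℝ → ℂ := fun s => if s ∈ Ioc (1 / 2 : ℝ) b then φ s else 0 with hψ
  have h4 : EqOn (fun s => gN g (mer e3p x s)) (ψ ∘ fun s => hh (s * ρ)) (Icc (1 / 4 : ℝ) 1) := by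
    intro s hs
    have hs0 : 0 ≤ s := by linarith [hs.1]
    have hle : hh (s * ρ) ≤ b := hh_anti (by positivity) (mul_le_mul_of_nonneg_right hs.1 hρ0.le)
    show gN g (mer e3p x s) = ψ (hh (s * ρ))
    rw [hmer s hs0]
    unfold gN
    have hp := hh_pos (s * ρ)
    have hl := hh_le (s * ρ)
    have hsq2 : hh (s * ρ) ^ 2 ≤ 1 := by nlinarith
    rw [Pz_2 hsq2]
    simp only [hψ]
    by_cases h5 : 1 / 2 < hh (s * ρ)
    · rw [if_pos h5, if_pos ⟨h5, hle⟩]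
    · rw [if_neg h5, if_neg (fun h => h5 h.1)]
  have h5 : eVariationOn (fun s => gN g (mer e3p x s)) (Icc (1 / 4) 1) ≤
      ((m + 2 * m : ℝ≥0) : ℝ≥0∞) := by
    rw [eVariationOn.congr h4]
    refine (eVariationOn.comp_le_of_antitoneOn ψ (fun s => hh (s * ρ)) (t := Icc (1 / 4 : ℝ) 1)
      (s := univ) ?_ (fun _ _ => mem_univ _)).trans h3
    intro a ha c _ hac
    exact hh_anti (mul_nonneg (by linarith [ha.1]) hρ0.le) (mul_le_mul_of_nonneg_right hac hρ0.le)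
  have h6 : ‖gN g x‖ₑ ≤ m := by
    unfold gN
    split_ifs
    · rw [hmM, ← hPx]
      exact le_self_add.trans (hb.bd θ hθ h0 hx1)
    · simp
  calc _ ≤ (m : ℝ≥0∞) + ((m + 2 * m : ℝ≥0) : ℝ≥0∞) := add_le_add h6 h5
    _ = 4 * M h0 θ := by
      rw [← hmM]
      push_cast
      ring

/-- integrals over the sphere in cylindrical coordinates -/
lemma lint_cyl (hC : CylZ) (F : sphere (0 : E3) 1 → ℝ≥0∞) (hF : Measurable F) :
    ∫⁻ x, F x ∂sigma = ∫⁻ h in Ioo (-1 : ℝ) 1, ∫⁻ θ in Ioo (-π) π, F (Pz h θ) := by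
  rw [← hC.2, lintegral_map hF hC.1, lintegral_prod]
  exact (hF.comp hC.1).aemeasurable

lemma int_MC (hC : CylZ) {M : ℝ → ℝ → ℝ≥0∞} (hM : Measurable (Function.uncurry M)) {q : ℝ}
    (hq : 0 < q) :
    ∫⁻ x, MC M x ^ q ∂sigma =
      4 ^ q * ∫⁻ h in Ioo (-1 : ℝ) 1, ∫⁻ θ in Ioo (-π) π, M h θ ^ q := by
  rw [lint_cyl hC _ ((MC_meas hM).pow_const q)]
  have h4 : (4 : ℝ≥0∞) ^ q ≠ ∞ := ENNReal.rpow_ne_top_of_nonneg hq.le (by norm_num)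
  rw [← lintegral_const_mul' _ _ h4]
  apply setLIntegral_congr_fun measurableSet_Ioo
  intro h hh
  simp only
  rw [← lintegral_const_mul' _ _ h4]
  apply setLIntegral_congr_fun measurableSet_Ioo
  intro θ hθ
  simp only
  unfold MC
  rw [if_pos (Pz_gd hh hθ), lon_Pz hh hθ, Pz_2 (sq_lt_one hh).le,
    ENNReal.mul_rpow_of_nonneg _ _ hq.le]

/-- the northern cap -/
theorem north (hC : CylZ) (q : ℝ) (hq : 3 < q) : ∃ C : ℝ≥0,
    ∀ (g : sphere (0 : E3) 1 → ℂ) (M : ℝ → ℝ → ℝ≥0∞), BVM g M →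
    ∫⁻ ξ : E3, ‖Pool.Agent.TH277.CS.ft (gN g) ξ‖ₑ ^ q ≤
      C * ∫⁻ h in Ioo (-1 : ℝ) 1, ∫⁻ θ in Ioo (-π) π, M h θ ^ q := by
  obtain ⟨C, h1⟩ := MV.cap q (1 / 2) hq (by norm_num)
  have hq0 : 0 < q := by linarith
  have hf : (4 ^ q : ℝ≥0∞) ≠ ∞ := ENNReal.rpow_ne_top_of_nonneg hq0.le (by norm_num)
  refine ⟨C * (4 ^ q : ℝ≥0∞).toNNReal, ?_⟩
  intro g M hb
  have h2 := h1 e3p (gN g) (MC M) (gN_meas hb.mg) (MC_meas hb.mM) ?_ ?_
  · rw [int_MC hC hb.mM hq0] at h2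
    rw [ENNReal.coe_mul, ENNReal.coe_toNNReal hf, mul_assoc]
    exact h2
  · intro x hx
    rw [e3p_inner] at hx
    unfold gN
    rw [if_neg (by linarith)]
  · intro x hx
    rw [e3p_inner] at hx
    exact north_var hb x hx

end Pool.Agent.TH407.MZ
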