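import Mathlib
import Pool.Agent.TH407.MZ.W1
import Pool.Agent.TH407.MZ.Defs
set_option autoImplicit false

/-! The zone `|x₃| ≤ 1/2` in height and longitude, and the whole sphere. -/

namespace Pool.Agent.TH407.MZ

open MeasureTheory Set Complex Metric
open scoped ENNReal NNReal Real RealInnerProductSpace
open Pool.Agent.TH277.CS (E3 sigma L L_le)
open Pool.Agent.TH407.MV (nrm e3p mer mer_sph sph sph_0 sph_1 sph_2 nv nv_pos nv_sq rs rs_meas
  rs_coe e3p_inner dt)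

open Classical in
/-- the part in the zone -/
noncomputable def gZ (g : sphere (0 : E3) 1 → ℂ) (x : sphere (0 : E3) 1) : ℂ :=
  if |(x : E3) 2| ≤ 1 / 2 then g x else 0

lemma gZ_meas {g : sphere (0 : E3) 1 → ℂ} (hg : Measurable g) : Measurable (gZ g) := by
  unfold gZ
  refine Measurable.ite (measurableSet_le ?_ measurable_const) hg measurable_const
  exact (coord_meas 2).abs

/-- the hypothesis in the zone -/
structure ZB (g : sphere (0 : E3) 1 → ℂ) (M : ℝ → ℝ≥0∞) : Prop where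
  mg : Measurable g
  mM : Measurable M
  bd : ∀ θ ∈ Ioo (-π) π, ∀ h ∈ Icc (-(1 / 2) : ℝ) (1 / 2), ‖g (Pz h θ)‖ₑ ≤ M θ
  var : ∀ θ ∈ Ioo (-π) π, eVariationOn (fun h => g (Pz h θ)) (Icc (-(1 / 2) : ℝ) (1 / 2)) ≤ M θ

open Classical in
/-- the part in the zone, as a function of height and longitude -/
noncomputable def az (g : sphere (0 : E3) 1 → ℂ) (M : ℝ → ℝ≥0∞) (s θ : ℝ) : ℂ :=
  if s ∈ Ioc (0 : ℝ) 1 ∧ θ ∈ Ioo (-π) π ∧ M θ ≠ ∞ then g (Pz (s - 1 / 2) θ) else 0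

lemma az_meas (hC : CylZ) {g : sphere (0 : E3) 1 → ℂ} {M : ℝ → ℝ≥0∞} (hb : ZB g M) :
    Measurable (Function.uncurry (az g M)) := by
  show Measurable fun p : ℝ × ℝ => az g M p.1 p.2
  unfold az
  have ha : MeasurableSet {p : ℝ × ℝ | p.1 ∈ Ioc (0 : ℝ) 1} := measurable_fst measurableSet_Ioc
  have hb' : MeasurableSet {p : ℝ × ℝ | p.2 ∈ Ioo (-π) π} := measurable_snd measurableSet_Ioo
  have hc : MeasurableSet {p : ℝ × ℝ | M p.2 = ∞} :=
    measurableSet_eq_fun (hb.mM.comp measurable_snd) measurable_const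
  have h1 : MeasurableSet {p : ℝ × ℝ | p.1 ∈ Ioc (0 : ℝ) 1 ∧ p.2 ∈ Ioo (-π) π ∧ M p.2 ≠ ∞} :=
    ha.inter (hb'.inter hc.compl)
  refine Measurable.ite h1 ?_ measurable_const
  have h2 : Measurable fun p : ℝ × ℝ => (p.1 - 1 / 2, p.2) :=
    (measurable_fst.sub_const (1 / 2)).prodMk measurable_snd
  have h3 := hb.mg.comp (hC.1.comp h2)
  have h4 : (g ∘ (fun p : ℝ × ℝ => Pz p.1 p.2) ∘ fun p : ℝ × ℝ => (p.1 - 1 / 2, p.2)) =
      fun p : ℝ × ℝ => g (Pz (p.1 - 1 / 2) p.2) := rfl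
  rw [h4] at h3
  exact h3

/-- the majorant -/
noncomputable def Mz (M : ℝ → ℝ≥0∞) (θ : ℝ) : ℝ≥0 := (3 * M θ).toNNReal

lemma Mz_coe {M : ℝ → ℝ≥0∞} {θ : ℝ} (h : M θ ≠ ∞) : (Mz M θ : ℝ≥0∞) = 3 * M θ :=
  ENNReal.coe_toNNReal (ENNReal.mul_ne_top (by norm_num) h)

lemma az_adm (hV : AR.VarMod) (hC : CylZ) {g : sphere (0 : E3) 1 → ℂ} {M : ℝ → ℝ≥0∞}
    (hb : ZB g M) : AR.Adm (az g M) (Mz M) where
  ma := az_meas hC hb
  mM := (hb.mM.const_mul 3).ennreal_toNNReal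
  supp s θ hs := by
    unfold az
    rw [if_neg]
    rintro ⟨h1, _⟩
    exact hs ⟨h1.1.le, h1.2⟩
  bd s θ := by
    unfold az
    split_ifs with h
    · rw [Mz_coe h.2.2]
      have h1 : s - 1 / 2 ∈ Icc (-(1 / 2) : ℝ) (1 / 2) :=
        ⟨by linarith [h.1.1], by linarith [h.1.2]⟩
      refine (hb.bd θ h.2.1 _ h1).trans ?_
      calc M θ = 1 * M θ := (one_mul _).symm
        _ ≤ 3 * M θ := mul_le_mul' (by norm_num) le_rfl
    · simp
  modc h θ := by
    by_cases hc : θ ∈ Ioo (-π) π ∧ M θ ≠ ∞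
    swap
    · have : ∀ s, az g M s θ = 0 := by
        intro s
        unfold az
        rw [if_neg]
        rintro ⟨_, h1⟩
        exact hc h1
      simp only [this, sub_self, enorm_zero, lintegral_zero]
      exact bot_le
    obtain ⟨hθ, hMt⟩ := hc
    set m : ℝ≥0 := (M θ).toNNReal with hm
    have hmM : (m : ℝ≥0∞) = M θ := ENNReal.coe_toNNReal hMt
    set φ : ℝ → ℂ := fun s => g (Pz (s - 1 / 2) θ) with hφ
    have h1 : ∀ s ∈ Ioc (0 : ℝ) 1, ‖φ s‖ₑ ≤ m := by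
      intro s hs
      rw [hmM]
      exact hb.bd θ hθ _ ⟨by linarith [hs.1], by linarith [hs.2]⟩
    have h2 : eVariationOn φ (Ioc (0 : ℝ) 1) ≤ m := by
      rw [hmM]
      refine le_trans ?_ (hb.var θ hθ)
      refine eVariationOn.comp_le_of_monotoneOn (fun h => g (Pz h θ)) (fun s : ℝ => s - 1 / 2)
        (t := Ioc (0 : ℝ) 1) (s := Icc (-(1 / 2) : ℝ) (1 / 2)) ?_ ?_
      · intro a _ b _ hab
        show a - 1 / 2 ≤ b - 1 / 2
        linarith
      · intro s hs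
        exact ⟨by linarith [hs.1], by linarith [hs.2]⟩
    have h3 := Pool.Agent.TH370.VR.eVariationOn_trunc h1 h2
    have e1 : (fun s => az g M s θ) = fun s => if s ∈ Ioc (0 : ℝ) 1 then φ s else 0 := by
      ext s
      unfold az
      by_cases hs : s ∈ Ioc (0 : ℝ) 1
      · rw [if_pos ⟨hs, hθ, hMt⟩, if_pos hs]
      · rw [if_neg hs, if_neg]
        rintro ⟨h, _⟩
        exact hs h
    have h4 : Measurable fun s => az g M s θ :=
      (az_meas hC hb).comp (measurable_id.prodMk measurable_const)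
    have h5 := hV (fun s => az g M s θ) (3 * M θ) h4 ?_ h
    · rw [Mz_coe hMt]
      exact h5
    · rw [e1]
      refine h3.trans (le_of_eq ?_)
      rw [← hmM]
      push_cast
      ring

lemma inner_Pz {h : ℝ} (hh : h ^ 2 ≤ 1) (θ : ℝ) (ξ : E3) : (⟪(Pz h θ : E3), ξ⟫ : ℝ) =
    √(1 - h ^ 2) * (Real.cos θ * ξ 0 + Real.sin θ * ξ 1) + h * ξ 2 := by
  rw [PiLp.inner_apply, Fin.sum_univ_three]
  simp only [RCLike.inner_apply, conj_trivial]
  rw [Pz_0 hh, Pz_1 hh, Pz_2 hh]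
  ring

lemma etz_one {h : ℝ} (hh : |h| ≤ 1 / 2) : etz h = 1 := by
  have := abs_le.1 hh
  unfold etz
  rw [Real.smoothTransition.one_of_one_le (by linarith),
    Real.smoothTransition.one_of_one_le (by linarith), one_mul]

lemma phase_meas (ξ : E3) : Measurable fun x : sphere (0 : E3) 1 =>
    cexp (-(2 * Real.pi * I * ((⟪(x : E3), ξ⟫ : ℝ) : ℂ))) := by
  have h1 : Measurable fun x : sphere (0 : E3) 1 => (⟪(x : E3), ξ⟫ : ℝ) := by
    have h2 : Measurable fun x : E3 => (⟪x, ξ⟫ : ℝ) := by fun_prop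
    exact h2.comp measurable_subtype_coe
  exact Complex.measurable_exp.comp
    ((measurable_const.mul (Complex.measurable_ofReal.comp h1)).neg)

/-- the Fourier transform in the zone -/
lemma ft_EZ (hC : CylZ) {g : sphere (0 : E3) 1 → ℂ} {M : ℝ → ℝ≥0∞} (hb : ZB g M)
    (hfin : ∀ᵐ θ ∂(volume.restrict (Ioo (-π) π)), M θ ≠ ∞) (ξ : E3) :
    Pool.Agent.TH277.CS.ft (gZ g) ξ = EZ (az g M) (L ξ).1 (-(L ξ).2) := by
  set ν' : Measure ℝ := (volume : Measure ℝ).restrict (Ioo (-π) π) with hν'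
  set F : ℝ × ℝ → ℂ := fun p => cexp (-(2 * Real.pi * I *
    ((⟪(Pz p.1 p.2 : E3), ξ⟫ : ℝ) : ℂ))) * gZ g (Pz p.1 p.2) with hF
  have hFm : Measurable F := ((phase_meas ξ).comp hC.1).mul ((gZ_meas hb.mg).comp hC.1)
  have e1 : Pool.Agent.TH277.CS.ft (gZ g) ξ =
      ∫ p, F p ∂(((volume : Measure ℝ).restrict (Ioo (-1 : ℝ) 1)).prod ν') := by
    unfold Pool.Agent.TH277.CS.ft
    rw [← hC.2, integral_map hC.1.aemeasurable]
    exact ((phase_meas ξ).mul (gZ_meas hb.mg)).aestronglyMeasurable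
  have e2 : ((volume : Measure ℝ).restrict (Ioo (-1 : ℝ) 1)).prod ν' =
      mZ.restrict (Ioo (-1 : ℝ) 1 ×ˢ univ) := by
    unfold mZ
    rw [← hν', ← Measure.prod_restrict, Measure.restrict_univ]
  -- translation
  set T : ℝ × ℝ → ℝ × ℝ := fun p => (p.1 - 1 / 2, p.2) with hT
  have hTmp : MeasurePreserving T mZ mZ := by
    have h1 : MeasurePreserving (fun s : ℝ => s - 1 / 2) volume volume :=
      measurePreserving_sub_right volume (1 / 2)
    have h2 := h1.prod (MeasurePreserving.id ν')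
    have h3 : Prod.map (fun s : ℝ => s - 1 / 2) (id : ℝ → ℝ) = T := rfl
    rw [h3] at h2
    unfold mZ
    exact h2
  set S : Set (ℝ × ℝ) := Ioo (-1 : ℝ) 1 ×ˢ univ with hS
  have hSm : MeasurableSet S := measurableSet_Ioo.prod MeasurableSet.univ
  have e3 : ∫ p, S.indicator F p ∂mZ = ∫ p, S.indicator F (T p) ∂mZ := by
    rw [← hTmp.map_eq, integral_map hTmp.aemeasurable
      (by rw [hTmp.map_eq]; exact (hFm.indicator hSm).aestronglyMeasurable)]
    rw [hTmp.map_eq]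
  rw [e1, e2, ← integral_indicator hSm, e3]
  unfold EZ
  apply integral_congr_ae
  have hn1 : ∀ᵐ p : ℝ × ℝ ∂mZ, p.1 ≠ 0 := by
    have h1 : ∀ᵐ s : ℝ ∂(volume : Measure ℝ), s ≠ 0 := by
      rw [ae_iff]
      simp
    exact (Measure.quasiMeasurePreserving_fst (μ := (volume : Measure ℝ)) (ν := ν')).ae h1
  have hn2 : ∀ᵐ p : ℝ × ℝ ∂mZ, M p.2 ≠ ∞ :=
    (Measure.quasiMeasurePreserving_snd (μ := (volume : Measure ℝ)) (ν := ν')).ae hfin
  have hn3 : ∀ᵐ p : ℝ × ℝ ∂mZ, p.2 ∈ Ioo (-π) π :=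
    (Measure.quasiMeasurePreserving_snd (μ := (volume : Measure ℝ)) (ν := ν')).ae
      (ae_restrict_mem measurableSet_Ioo)
  filter_upwards [hn1, hn2, hn3] with p h1 h2 h3
  show S.indicator F (p.1 - 1 / 2, p.2) = _
  by_cases hs : p.1 ∈ Ioc (0 : ℝ) 1
  · have hI : p.1 - 1 / 2 ∈ Ioo (-1 : ℝ) 1 := ⟨by linarith [hs.1], by linarith [hs.2]⟩
    have habs : |p.1 - 1 / 2| ≤ 1 / 2 := abs_le.2 ⟨by linarith [hs.1], by linarith [hs.2]⟩
    have hsq : (p.1 - 1 / 2) ^ 2 ≤ 1 := (sq_lt_one hI).le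
    rw [indicator_of_mem (show (p.1 - 1 / 2, p.2) ∈ S from ⟨hI, mem_univ _⟩)]
    simp only [hF]
    unfold gZ az
    rw [Pz_2 hsq, if_pos habs, if_pos ⟨hs, h3, h2⟩, inner_Pz hsq, etz_one habs]
    congr 1
    · congr 2
      unfold L MV.dt
      push_cast
      ring
    · simp
  · have hz : az g M p.1 p.2 = 0 := by
      unfold az
      rw [if_neg]
      rintro ⟨h, _⟩
      exact hs h
    rw [hz, mul_zero, mul_zero]
    by_cases hI : p.1 - 1 / 2 ∈ Ioo (-1 : ℝ) 1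
    · rw [indicator_of_mem (show (p.1 - 1 / 2, p.2) ∈ S from ⟨hI, mem_univ _⟩)]
      simp only [hF]
      unfold gZ
      rw [Pz_2 (sq_lt_one hI).le, if_neg, mul_zero]
      intro h
      have := abs_le.1 h
      apply hs
      exact ⟨lt_of_le_of_ne (by linarith [this.1]) (Ne.symm h1), by linarith [this.2]⟩
    · exact indicator_of_notMem (fun h => hI h.1) _

end Pool.Agent.TH407.MZ
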