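import Mathlib
import Pool.Agent.TH407.MZ.W2
set_option autoImplicit false

/-! The whole sphere. -/

namespace Pool.Agent.TH407.MZ

open MeasureTheory Set Complex Metric
open scoped ENNReal NNReal Real RealInnerProductSpace
open Pool.Agent.TH277.CS (E3 sigma L L_le)
open Pool.Agent.TH407.MV (nrm e3p rs rs_meas rs_coe e3p_inner dt rs_mp ft_rs)

lemma dt_meas : Measurable fun p : (ℝ × ℝ) × ℝ => dt p.1 p.2 := by
  unfold MV.dt
  fun_prop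

lemma etz_meas : Measurable etz := by
  unfold etz
  have h := Real.smoothTransition.continuous
  exact ((h.comp (by fun_prop : Continuous fun s : ℝ => 3 - 4 * s)).mul
    (h.comp (by fun_prop : Continuous fun s : ℝ => 3 + 4 * s))).measurable

lemma EZ_meas {b : ℝ → ℝ → ℂ} (hb : Measurable (Function.uncurry b)) :
    Measurable fun ξ : (ℝ × ℝ) × ℝ => EZ b ξ.1 ξ.2 := by
  have h1 : Measurable fun r : ((ℝ × ℝ) × ℝ) × (ℝ × ℝ) => dt r.1.1 r.2.2 :=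
    dt_meas.comp ((measurable_fst.comp measurable_fst).prodMk (measurable_snd.comp measurable_snd))
  have h2 : Measurable fun r : ((ℝ × ℝ) × ℝ) × (ℝ × ℝ) => etz (r.2.1 - 1 / 2) :=
    etz_meas.comp ((measurable_fst.comp measurable_snd).sub_const (1 / 2))
  have h3 : Measurable fun r : ((ℝ × ℝ) × ℝ) × (ℝ × ℝ) => b r.2.1 r.2.2 := by
    have := hb.comp (measurable_snd : Measurable fun r : ((ℝ × ℝ) × ℝ) × (ℝ × ℝ) => r.2)
    exact this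
  have h4 : Measurable fun r : ((ℝ × ℝ) × ℝ) × (ℝ × ℝ) => √(1 - (r.2.1 - 1 / 2) ^ 2) := by
    fun_prop
  have h5 : Measurable fun r : ((ℝ × ℝ) × ℝ) × (ℝ × ℝ) =>
      (√(1 - (r.2.1 - 1 / 2) ^ 2) * dt r.1.1 r.2.2 + (r.2.1 - 1 / 2) * r.1.2 : ℝ) :=
    (h4.mul h1).add (((measurable_fst.comp measurable_snd).sub_const (1 / 2)).mul
      (measurable_snd.comp measurable_fst))
  have h6 : StronglyMeasurable fun r : ((ℝ × ℝ) × ℝ) × (ℝ × ℝ) =>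
      cexp (-(I * ((√(1 - (r.2.1 - 1 / 2) ^ 2) * dt r.1.1 r.2.2 + (r.2.1 - 1 / 2) * r.1.2 : ℝ) : ℂ)))
        * ((etz (r.2.1 - 1 / 2) : ℂ) * b r.2.1 r.2.2) := by
    apply Measurable.stronglyMeasurable
    exact ((((Complex.measurable_ofReal.comp h5).const_mul I).neg).cexp).mul
      ((Complex.measurable_ofReal.comp h2).mul h3)
  have : SFinite mZ := by unfold mZ; infer_instance
  exact (h6.integral_prod_right' (ν := mZ)).measurable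

/-- the zone -/
theorem zone0 (hS : StrongZ) (hV : AR.VarMod) (hC : CylZ) (q : ℝ) (hq : 3 < q) : ∃ C : ℝ≥0,
    ∀ (g : sphere (0 : E3) 1 → ℂ) (M : ℝ → ℝ≥0∞), ZB g M →
    (∀ᵐ θ ∂(volume.restrict (Ioo (-π) π)), M θ ≠ ∞) →
    ∫⁻ ξ : E3, ‖Pool.Agent.TH277.CS.ft (gZ g) ξ‖ₑ ^ q ≤ C * ∫⁻ θ in Ioo (-π) π, M θ ^ q := by
  obtain ⟨C, h1⟩ := hS q hq
  have hq0 : 0 < q := by linarith
  have hf : (3 : ℝ≥0∞) ^ q ≠ ∞ := ENNReal.rpow_ne_top_of_nonneg hq0.le (by norm_num)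
  refine ⟨C * ((3 : ℝ≥0∞) ^ q).toNNReal, ?_⟩
  intro g M hb hfin
  rw [ENNReal.coe_mul, ENNReal.coe_toNNReal hf]
  set a := az g M with ha
  set Φ : (ℝ × ℝ) × ℝ → ℝ≥0∞ := fun p => ‖EZ a p.1 (-p.2)‖ₑ ^ q with hΦ
  have hneg : Measurable fun p : (ℝ × ℝ) × ℝ => (p.1, -p.2) :=
    measurable_fst.prodMk measurable_snd.neg
  have hΦm : Measurable Φ := ((EZ_meas (az_meas hC hb)).comp hneg).enorm.pow_const q
  have h2 : ∫⁻ ξ : E3, ‖Pool.Agent.TH277.CS.ft (gZ g) ξ‖ₑ ^ q = ∫⁻ ξ : E3, Φ (L ξ) := by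
    apply lintegral_congr
    intro ξ
    rw [ft_EZ hC hb hfin ξ]
  have h3 : ∫⁻ p, Φ p = ∫⁻ ξ : (ℝ × ℝ) × ℝ, ‖EZ a ξ.1 ξ.2‖ₑ ^ q := by
    have hmp : MeasurePreserving (Prod.map (id : ℝ × ℝ → ℝ × ℝ) (fun t : ℝ => -t))
        (volume : Measure ((ℝ × ℝ) × ℝ)) volume := by
      have := (MeasurePreserving.id (volume : Measure (ℝ × ℝ))).prod
        (Measure.measurePreserving_neg (volume : Measure ℝ))
      exact this
    have h4 := hmp.lintegral_comp (f := fun ξ : (ℝ × ℝ) × ℝ => ‖EZ a ξ.1 ξ.2‖ₑ ^ q)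
      ((EZ_meas (az_meas hC hb)).enorm.pow_const q)
    exact h4
  rw [h2]
  refine (L_le Φ hΦm).trans ?_
  rw [h3]
  refine (h1 a (Mz M) (az_adm hV hC hb)).trans ?_
  rw [mul_assoc]
  apply mul_le_mul' le_rfl
  rw [← lintegral_const_mul' _ _ hf]
  apply lintegral_mono_ae
  filter_upwards [hfin] with θ hθ
  rw [Mz_coe hθ, ENNReal.mul_rpow_of_nonneg _ _ hq0.le]

/-- the averaged majorant -/
noncomputable def Wz (q : ℝ) (M : ℝ → ℝ → ℝ≥0∞) (θ : ℝ) : ℝ≥0∞ :=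
  (2⁻¹ * ∫⁻ h in Ioo (-1 : ℝ) 1, M h θ ^ q) ^ (1 / q)

lemma Wz_meas (q : ℝ) {M : ℝ → ℝ → ℝ≥0∞} (hM : Measurable (Function.uncurry M)) :
    Measurable (Wz q M) := by
  unfold Wz
  apply Measurable.pow_const
  apply Measurable.const_mul
  have h1 : Measurable (Function.uncurry fun θ h : ℝ => M h θ ^ q) := by
    have : (Function.uncurry fun θ h : ℝ => M h θ ^ q) =
        fun p : ℝ × ℝ => (Function.uncurry M (p.2, p.1)) ^ q := rfl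
    rw [this]
    exact (hM.comp measurable_swap).pow_const q
  exact h1.lintegral_prod_right'

lemma Wz_lower {q : ℝ} (hq : 0 < q) {M : ℝ → ℝ → ℝ≥0∞} {θ : ℝ} {A : ℝ≥0∞}
    (hA : ∀ h ∈ Ioo (-1 : ℝ) 1, A ≤ M h θ) : A ≤ Wz q M θ := by
  have h1 : A ^ q ≤ 2⁻¹ * ∫⁻ h in Ioo (-1 : ℝ) 1, M h θ ^ q := by
    have h2 : ∫⁻ _ in Ioo (-1 : ℝ) 1, A ^ q ≤ ∫⁻ h in Ioo (-1 : ℝ) 1, M h θ ^ q := by
      apply setLIntegral_mono' measurableSet_Ioo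
      intro h hh
      exact ENNReal.rpow_le_rpow (hA h hh) hq.le
    rw [lintegral_const, Measure.restrict_apply_univ, Real.volume_Ioo] at h2
    have h3 : ENNReal.ofReal (1 - -1) = 2 := by norm_num
    rw [h3] at h2
    calc A ^ q = 2⁻¹ * (A ^ q * 2) := by
          rw [mul_comm (A ^ q) 2, ← mul_assoc, ENNReal.inv_mul_cancel (by norm_num) (by norm_num),
            one_mul]
      _ ≤ _ := mul_le_mul' le_rfl h2
  unfold Wz
  calc A = (A ^ q) ^ (1 / q) := by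
        rw [← ENNReal.rpow_mul, mul_one_div_cancel hq.ne', ENNReal.rpow_one]
    _ ≤ _ := ENNReal.rpow_le_rpow h1 (by positivity)

lemma Wz_pow {q : ℝ} (hq : 0 < q) (M : ℝ → ℝ → ℝ≥0∞) (θ : ℝ) :
    Wz q M θ ^ q = 2⁻¹ * ∫⁻ h in Ioo (-1 : ℝ) 1, M h θ ^ q := by
  unfold Wz
  rw [← ENNReal.rpow_mul, one_div_mul_cancel hq.ne', ENNReal.rpow_one]

lemma Wz_int {q : ℝ} (hq : 0 < q) {M : ℝ → ℝ → ℝ≥0∞} (hM : Measurable (Function.uncurry M)) :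
    ∫⁻ θ in Ioo (-π) π, Wz q M θ ^ q =
      2⁻¹ * ∫⁻ h in Ioo (-1 : ℝ) 1, ∫⁻ θ in Ioo (-π) π, M h θ ^ q := by
  have h1 : ∀ θ, Wz q M θ ^ q = 2⁻¹ * ∫⁻ h in Ioo (-1 : ℝ) 1, M h θ ^ q := Wz_pow hq M
  simp_rw [h1]
  rw [lintegral_const_mul' _ _ (by norm_num)]
  congr 1
  rw [lintegral_lintegral_swap]
  have : (Function.uncurry fun θ h : ℝ => M h θ ^ q) =
      fun p : ℝ × ℝ => (Function.uncurry M (p.2, p.1)) ^ q := rfl
  rw [this]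
  exact ((hM.comp measurable_swap).pow_const q).aemeasurable

lemma ZB_of (q : ℝ) (hq : 0 < q) {g : sphere (0 : E3) 1 → ℂ} {M : ℝ → ℝ → ℝ≥0∞}
    (hb : BVM g M) : ZB g (Wz q M) where
  mg := hb.mg
  mM := Wz_meas q hb.mM
  bd θ hθ s hs := Wz_lower hq fun h hh => hb.sup hθ hh
    ⟨by linarith [hs.1, half_le_rr h], by linarith [hs.2, half_le_rr h]⟩
  var θ hθ := Wz_lower hq fun h hh => by
    refine (eVariationOn.mono _ ?_).trans (le_add_self.trans (hb.bd θ hθ h hh))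
    intro s hs
    exact ⟨by linarith [hs.1, half_le_rr h], by linarith [hs.2, half_le_rr h]⟩

/-- the zone, with the local majorant -/
theorem zone (hS : StrongZ) (hV : AR.VarMod) (hC : CylZ) (q : ℝ) (hq : 3 < q) : ∃ C : ℝ≥0,
    ∀ (g : sphere (0 : E3) 1 → ℂ) (M : ℝ → ℝ → ℝ≥0∞), BVM g M →
    ∫⁻ h in Ioo (-1 : ℝ) 1, ∫⁻ θ in Ioo (-π) π, M h θ ^ q ≠ ∞ →
    ∫⁻ ξ : E3, ‖Pool.Agent.TH277.CS.ft (gZ g) ξ‖ₑ ^ q ≤
      C * ∫⁻ h in Ioo (-1 : ℝ) 1, ∫⁻ θ in Ioo (-π) π, M h θ ^ q := by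
  obtain ⟨C, h1⟩ := zone0 hS hV hC q hq
  have hq0 : 0 < q := by linarith
  refine ⟨C, ?_⟩
  intro g M hb hfin
  have hI := Wz_int hq0 hb.mM
  have hf2 : ∫⁻ θ in Ioo (-π) π, Wz q M θ ^ q ≠ ∞ := by
    rw [hI]
    exact ENNReal.mul_ne_top (by norm_num) hfin
  have hae : ∀ᵐ θ ∂(volume.restrict (Ioo (-π) π)), Wz q M θ ≠ ∞ := by
    filter_upwards [ae_lt_top ((Wz_meas q hb.mM).pow_const q) hf2] with θ hθ h
    rw [h, ENNReal.top_rpow_of_pos hq0] at hθ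
    exact lt_irrefl _ hθ
  refine (h1 g (Wz q M) (ZB_of q hq0 hb) hae).trans ?_
  rw [hI]
  apply mul_le_mul' le_rfl
  calc (2⁻¹ : ℝ≥0∞) * ∫⁻ h in Ioo (-1 : ℝ) 1, ∫⁻ θ in Ioo (-π) π, M h θ ^ q
      ≤ 1 * ∫⁻ h in Ioo (-1 : ℝ) 1, ∫⁻ θ in Ioo (-π) π, M h θ ^ q := by
        apply mul_le_mul' _ le_rfl
        exact ENNReal.inv_le_one.2 (by norm_num)
    _ = _ := one_mul _

/-- the reflection in the equator -/
lemma exists_refl : ∃ Q : E3 ≃ₗᵢ[ℝ] E3, ∀ x : E3, Q x 0 = x 0 ∧ Q x 1 = x 1 ∧ Q x 2 = -x 2 := by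
  refine ⟨(ℝ ∙ (EuclideanSpace.single (2 : Fin 3) (1 : ℝ)))ᗮ.reflection, ?_⟩
  intro x
  have h1 : (ℝ ∙ (EuclideanSpace.single (2 : Fin 3) (1 : ℝ)))ᗮ.reflection x =
      x - (2 * x 2) • EuclideanSpace.single (2 : Fin 3) (1 : ℝ) := by
    rw [Submodule.reflection_orthogonal_apply, Submodule.reflection_singleton_apply]
    simp [EuclideanSpace.inner_single_left]
    module
  rw [h1]
  refine ⟨?_, ?_, ?_⟩
  · simp
  · simp
  · simp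
    ring

end Pool.Agent.TH407.MZ
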