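import Mathlib
import Pool.Agent.TH407.MZ.W3
set_option autoImplicit false

/-! The whole sphere: assembly. -/

namespace Pool.Agent.TH407.MZ

open MeasureTheory Set Complex Metric
open scoped ENNReal NNReal Real RealInnerProductSpace
open Pool.Agent.TH277.CS (E3 sigma L L_le)
open Pool.Agent.TH407.MV (nrm e3p rs rs_meas rs_coe e3p_inner dt rs_mp ft_rs)

lemma rs_refl {Q : E3 ≃ₗᵢ[ℝ] E3} (hQ : ∀ x : E3, Q x 0 = x 0 ∧ Q x 1 = x 1 ∧ Q x 2 = -x 2)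
    {h : ℝ} (hh : h ∈ Ioo (-1 : ℝ) 1) (θ : ℝ) : rs Q (Pz h θ) = Pz (-h) θ := by
  have h1 := (sq_lt_one hh).le
  have h2 : (-h) ^ 2 ≤ 1 := by rw [neg_sq]; exact h1
  obtain ⟨q0, q1, q2⟩ := hQ (Pz h θ : E3)
  apply Subtype.ext
  ext i
  fin_cases i
  · show Q (Pz h θ : E3) 0 = (Pz (-h) θ : E3) 0
    rw [q0, Pz_0 h1, Pz_0 h2, neg_sq]
  · show Q (Pz h θ : E3) 1 = (Pz (-h) θ : E3) 1
    rw [q1, Pz_1 h1, Pz_1 h2, neg_sq]
  · show Q (Pz h θ : E3) 2 = (Pz (-h) θ : E3) 2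
    rw [q2, Pz_2 h1, Pz_2 h2]

lemma BVM_refl {Q : E3 ≃ₗᵢ[ℝ] E3} (hQ : ∀ x : E3, Q x 0 = x 0 ∧ Q x 1 = x 1 ∧ Q x 2 = -x 2)
    {g : sphere (0 : E3) 1 → ℂ} {M : ℝ → ℝ → ℝ≥0∞} (hb : BVM g M) :
    BVM (fun x => g (rs Q x)) (fun h θ => M (-h) θ) where
  mg := hb.mg.comp (rs_meas Q)
  mM := by
    have h1 : Measurable fun p : ℝ × ℝ => (-p.1, p.2) := measurable_fst.neg.prodMk measurable_snd
    exact hb.mM.comp h1
  bd θ hθ h hh := by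
    have hh' : -h ∈ Ioo (-1 : ℝ) 1 := ⟨by linarith [hh.2], by linarith [hh.1]⟩
    have hrr : rr (-h) = rr h := by unfold rr; rw [abs_neg]
    have e : EqOn (fun s => g (rs Q (Pz s θ))) ((fun s => g (Pz s θ)) ∘ fun s : ℝ => -s)
        (Icc (-rr h) (rr h)) := by
      intro s hs
      show g (rs Q (Pz s θ)) = g (Pz (-s) θ)
      have hr := rr_lt hh
      rw [rs_refl hQ ⟨by linarith [hs.1], by linarith [hs.2]⟩]
    rw [eVariationOn.congr e, rs_refl hQ hh]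
    refine le_trans (add_le_add le_rfl ?_) (hb.bd θ hθ (-h) hh')
    rw [hrr]
    refine eVariationOn.comp_le_of_antitoneOn (fun h => g (Pz h θ)) (fun h : ℝ => -h)
      (t := Icc (-rr h) (rr h)) (s := Icc (-rr h) (rr h)) ?_ ?_
    · intro a _ b _ hab
      exact neg_le_neg hab
    · intro s hs
      exact ⟨by linarith [hs.2], by linarith [hs.1]⟩

lemma int_refl {M : ℝ → ℝ → ℝ≥0∞} (q : ℝ) :
    ∫⁻ h in Ioo (-1 : ℝ) 1, ∫⁻ θ in Ioo (-π) π, M (-h) θ ^ q =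
      ∫⁻ h in Ioo (-1 : ℝ) 1, ∫⁻ θ in Ioo (-π) π, M h θ ^ q := by
  have h1 := (Measure.measurePreserving_neg (volume : Measure ℝ)).setLIntegral_comp_preimage_emb
    (MeasurableEquiv.neg ℝ).measurableEmbedding
    (fun h => ∫⁻ θ in Ioo (-π) π, M h θ ^ q) (Ioo (-1 : ℝ) 1)
  have h2 : (fun h : ℝ => -h) ⁻¹' (Ioo (-1 : ℝ) 1) = Ioo (-1 : ℝ) 1 := by
    ext h
    simp only [mem_preimage, mem_Ioo]
    constructor <;> rintro ⟨h3, h4⟩ <;> constructor <;> linarith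
  have h3 : (Neg.neg : ℝ → ℝ) = fun h : ℝ => -h := rfl
  rw [h3, h2] at h1
  exact h1

lemma lint_rot (R : E3 ≃ₗᵢ[ℝ] E3) (f : sphere (0 : E3) 1 → ℂ) (hf : Measurable f) (q : ℝ) :
    ∫⁻ ξ : E3, ‖Pool.Agent.TH277.CS.ft f ξ‖ₑ ^ q =
      ∫⁻ η : E3, ‖Pool.Agent.TH277.CS.ft (fun x => f (rs R x)) η‖ₑ ^ q := by
  have hRmp : MeasurePreserving R.toHomeomorph.toMeasurableEquiv
    (volume : Measure E3) volume := R.measurePreserving
  rw [← hRmp.lintegral_comp_emb R.toHomeomorph.toMeasurableEquiv.measurableEmbedding]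
  apply lintegral_congr
  intro η
  show ‖Pool.Agent.TH277.CS.ft f (R η)‖ₑ ^ q = _
  rw [ft_rs R f hf η]

open Classical in
/-- the part in the southern cap -/
noncomputable def gS (g : sphere (0 : E3) 1 → ℂ) (x : sphere (0 : E3) 1) : ℂ :=
  if (x : E3) 2 < -(1 / 2) then g x else 0

lemma gS_meas {g : sphere (0 : E3) 1 → ℂ} (hg : Measurable g) : Measurable (gS g) := by
  unfold gS
  exact Measurable.ite (measurableSet_lt (coord_meas 2) measurable_const) hg measurable_const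

/-- the southern cap -/
theorem south (hC : CylZ) (q : ℝ) (hq : 3 < q) : ∃ C : ℝ≥0,
    ∀ (g : sphere (0 : E3) 1 → ℂ) (M : ℝ → ℝ → ℝ≥0∞), BVM g M →
    ∫⁻ ξ : E3, ‖Pool.Agent.TH277.CS.ft (gS g) ξ‖ₑ ^ q ≤
      C * ∫⁻ h in Ioo (-1 : ℝ) 1, ∫⁻ θ in Ioo (-π) π, M h θ ^ q := by
  obtain ⟨C, h1⟩ := north hC q hq
  obtain ⟨Q, hQ⟩ := exists_refl
  refine ⟨C, ?_⟩
  intro g M hb
  rw [lint_rot Q (gS g) (gS_meas hb.mg) q]
  have e : (fun x => gS g (rs Q x)) = gN (fun x => g (rs Q x)) := by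
    ext x
    unfold gS gN
    have h2 : (rs Q x : E3) 2 = -(x : E3) 2 := (hQ (x : E3)).2.2
    rw [h2]
    by_cases h3 : 1 / 2 < (x : E3) 2
    · rw [if_pos h3, if_pos (by linarith)]
    · rw [if_neg h3, if_neg (by linarith)]
  rw [e, ← int_refl q]
  exact h1 _ _ (BVM_refl hQ hb)

lemma split3 (g : sphere (0 : E3) 1 → ℂ) (x : sphere (0 : E3) 1) :
    g x = gN g x + gZ g x + gS g x := by
  unfold gN gZ gS
  by_cases h1 : 1 / 2 < (x : E3) 2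
  · rw [if_pos h1, if_neg, if_neg (by linarith), add_zero, add_zero]
    intro h
    have := abs_le.1 h
    linarith [this.2]
  · by_cases h2 : (x : E3) 2 < -(1 / 2)
    · rw [if_neg h1, if_neg, if_pos h2, zero_add, zero_add]
      intro h
      have := abs_le.1 h
      linarith [this.1]
    · rw [if_neg h1, if_pos, if_neg h2, zero_add, add_zero]
      push Not at h1 h2
      exact abs_le.2 ⟨by linarith, h1⟩

lemma norm_ph (ξ : E3) (x : sphere (0 : E3) 1) :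
    ‖cexp (-(2 * Real.pi * I * ((⟪(x : E3), ξ⟫ : ℝ) : ℂ)))‖ = 1 := by
  rw [show -(2 * Real.pi * I * ((⟪(x : E3), ξ⟫ : ℝ) : ℂ)) =
    ((-(2 * Real.pi * ⟪(x : E3), ξ⟫) : ℝ) : ℂ) * I by push_cast; ring]
  exact Complex.norm_exp_ofReal_mul_I _

lemma ft_int {f g : sphere (0 : E3) 1 → ℂ} (hf : Measurable f) (hg : Integrable g sigma)
    (hle : ∀ x, ‖f x‖ ≤ ‖g x‖) (ξ : E3) :
    Integrable (fun x : sphere (0 : E3) 1 =>
      cexp (-(2 * Real.pi * I * ((⟪(x : E3), ξ⟫ : ℝ) : ℂ))) * f x) sigma := by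
  refine hg.mono ((phase_meas ξ).mul hf).aestronglyMeasurable (ae_of_all _ fun x => ?_)
  rw [norm_mul, norm_ph, one_mul]
  exact hle x

lemma gN_le (g : sphere (0 : E3) 1 → ℂ) (x : sphere (0 : E3) 1) : ‖gN g x‖ ≤ ‖g x‖ := by
  unfold gN
  split_ifs
  · exact le_rfl
  · simp

lemma gZ_le (g : sphere (0 : E3) 1 → ℂ) (x : sphere (0 : E3) 1) : ‖gZ g x‖ ≤ ‖g x‖ := by
  unfold gZ
  split_ifs
  · exact le_rfl
  · simp

lemma gS_le (g : sphere (0 : E3) 1 → ℂ) (x : sphere (0 : E3) 1) : ‖gS g x‖ ≤ ‖g x‖ := by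
  unfold gS
  split_ifs
  · exact le_rfl
  · simp

lemma rpow_three (a b c : ℝ≥0∞) (q : ℝ) (hq : 1 ≤ q) :
    (a + b + c) ^ q ≤ 4 ^ q * (a ^ q + b ^ q + c ^ q) := by
  have h1 := ENNReal.rpow_add_le_mul_rpow_add_rpow (a + b) c hq
  have h2 := ENNReal.rpow_add_le_mul_rpow_add_rpow a b hq
  have h4 : (2 : ℝ≥0∞) ^ (q - 1) ≤ 2 ^ q :=
    ENNReal.rpow_le_rpow_of_exponent_le (by norm_num) (by linarith)
  have h5 : (1 : ℝ≥0∞) ≤ 2 ^ q := ENNReal.one_le_rpow (by norm_num) (by linarith)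
  have h6 : (4 : ℝ≥0∞) ^ q = 2 ^ q * 2 ^ q := by
    rw [← ENNReal.mul_rpow_of_nonneg _ _ (by linarith)]
    norm_num
  calc (a + b + c) ^ q ≤ 2 ^ (q - 1) * ((a + b) ^ q + c ^ q) := h1
    _ ≤ 2 ^ q * (2 ^ q * (a ^ q + b ^ q) + c ^ q) := by
        gcongr
        exact h2.trans (mul_le_mul' h4 le_rfl)
    _ ≤ 2 ^ q * (2 ^ q * (a ^ q + b ^ q) + 2 ^ q * c ^ q) := by
        gcongr
        calc c ^ q = 1 * c ^ q := (one_mul _).symm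
          _ ≤ _ := mul_le_mul' h5 le_rfl
    _ = _ := by rw [h6]; ring

lemma integrable_of_BVM (hC : CylZ) {g : sphere (0 : E3) 1 → ℂ} {M : ℝ → ℝ → ℝ≥0∞}
    (hb : BVM g M) {q : ℝ} (hq : 1 ≤ q)
    (hfin : ∫⁻ h in Ioo (-1 : ℝ) 1, ∫⁻ θ in Ioo (-π) π, M h θ ^ q ≠ ∞) :
    Integrable g sigma := by
  refine ⟨hb.mg.aestronglyMeasurable, ?_⟩
  show ∫⁻ x, ‖g x‖ₑ ∂sigma < ∞
  rw [lint_cyl hC _ hb.mg.enorm]
  have h2 : ∫⁻ h in Ioo (-1 : ℝ) 1, ∫⁻ θ in Ioo (-π) π, ‖g (Pz h θ)‖ₑ ≤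
      ∫⁻ h in Ioo (-1 : ℝ) 1, ((∫⁻ _ in Ioo (-π) π, (1 : ℝ≥0∞)) +
        ∫⁻ θ in Ioo (-π) π, M h θ ^ q) := by
    apply setLIntegral_mono' measurableSet_Ioo
    intro h hh
    rw [← lintegral_add_left measurable_const]
    apply setLIntegral_mono' measurableSet_Ioo
    intro θ hθ
    have h3 : ‖g (Pz h θ)‖ₑ ≤ M h θ := le_self_add.trans (hb.bd θ hθ h hh)
    refine h3.trans ?_
    show M h θ ≤ 1 + M h θ ^ q
    rcases le_total (M h θ) 1 with h | h'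
    · exact h.trans le_self_add
    · refine le_trans ?_ le_add_self
      calc M h θ = M h θ ^ (1 : ℝ) := (ENNReal.rpow_one _).symm
        _ ≤ _ := ENNReal.rpow_le_rpow_of_exponent_le h' hq
  refine lt_of_le_of_lt h2 ?_
  rw [lintegral_add_left measurable_const, lintegral_const, lintegral_const,
    Measure.restrict_apply_univ, Measure.restrict_apply_univ, Real.volume_Ioo, Real.volume_Ioo]
  refine ENNReal.add_lt_top.2 ⟨?_, lt_top_iff_ne_top.2 hfin⟩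
  exact ENNReal.mul_lt_top (ENNReal.mul_lt_top ENNReal.one_lt_top ENNReal.ofReal_lt_top)
    ENNReal.ofReal_lt_top

/-- the whole sphere, standard axis -/
theorem whole0 (hS : StrongZ) (hV : AR.VarMod) (hC : CylZ) (q : ℝ) (hq : 3 < q) : ∃ C : ℝ≥0,
    ∀ (g : sphere (0 : E3) 1 → ℂ) (M : ℝ → ℝ → ℝ≥0∞), BVM g M →
    ∫⁻ ξ : E3, ‖Pool.Agent.TH277.CS.ft g ξ‖ₑ ^ q ≤
      C * ∫⁻ h in Ioo (-1 : ℝ) 1, ∫⁻ θ in Ioo (-π) π, M h θ ^ q := by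
  obtain ⟨C1, h1⟩ := north hC q hq
  obtain ⟨C2, h2⟩ := zone hS hV hC q hq
  obtain ⟨C3, h3⟩ := south hC q hq
  have hq0 : 0 < q := by linarith
  have hf : (4 : ℝ≥0∞) ^ q ≠ ∞ := ENNReal.rpow_ne_top_of_nonneg hq0.le (by norm_num)
  refine ⟨max 1 (((4 : ℝ≥0∞) ^ q).toNNReal * (C1 + C2 + C3)), ?_⟩
  intro g M hb
  set II := ∫⁻ h in Ioo (-1 : ℝ) 1, ∫⁻ θ in Ioo (-π) π, M h θ ^ q with hII
  by_cases hfin : II = ∞
  · rw [hfin, ENNReal.mul_top]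
    · exact le_top
    · have : (1 : ℝ≥0) ≤ max 1 (((4 : ℝ≥0∞) ^ q).toNNReal * (C1 + C2 + C3)) := le_max_left _ _
      have h4 : (1 : ℝ≥0∞) ≤
          ((max 1 (((4 : ℝ≥0∞) ^ q).toNNReal * (C1 + C2 + C3)) : ℝ≥0) : ℝ≥0∞) := by
        exact_mod_cast this
      exact (lt_of_lt_of_le one_pos h4).ne'
  have hgi : Integrable g sigma := integrable_of_BVM hC hb (by linarith) hfin
  have hadd : ∀ ξ : E3, Pool.Agent.TH277.CS.ft g ξ = Pool.Agent.TH277.CS.ft (gN g) ξ +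
      Pool.Agent.TH277.CS.ft (gZ g) ξ + Pool.Agent.TH277.CS.ft (gS g) ξ := by
    intro ξ
    have i1 := ft_int (gN_meas hb.mg) hgi (gN_le g) ξ
    have i2 := ft_int (gZ_meas hb.mg) hgi (gZ_le g) ξ
    have i3 := ft_int (gS_meas hb.mg) hgi (gS_le g) ξ
    unfold Pool.Agent.TH277.CS.ft
    rw [← integral_add i1 i2]
    have i12 : Integrable (fun x : sphere (0 : E3) 1 =>
        cexp (-(2 * Real.pi * I * ((⟪(x : E3), ξ⟫ : ℝ) : ℂ))) * gN g x +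
        cexp (-(2 * Real.pi * I * ((⟪(x : E3), ξ⟫ : ℝ) : ℂ))) * gZ g x) sigma := i1.add i2
    rw [← integral_add i12 i3]
    refine integral_congr_ae (ae_of_all _ fun x => ?_)
    show cexp (-(2 * Real.pi * I * ((⟪(x : E3), ξ⟫ : ℝ) : ℂ))) * g x =
      cexp (-(2 * Real.pi * I * ((⟪(x : E3), ξ⟫ : ℝ) : ℂ))) * gN g x +
      cexp (-(2 * Real.pi * I * ((⟪(x : E3), ξ⟫ : ℝ) : ℂ))) * gZ g x +
      cexp (-(2 * Real.pi * I * ((⟪(x : E3), ξ⟫ : ℝ) : ℂ))) * gS g x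
    rw [← mul_add, ← mul_add, ← split3 g x]
  have hmeas : ∀ f : sphere (0 : E3) 1 → ℂ, Measurable f →
      Measurable fun ξ : E3 => ‖Pool.Agent.TH277.CS.ft f ξ‖ₑ ^ q := by
    intro f hf
    have hin : Measurable fun p : E3 × sphere (0 : E3) 1 => (⟪(p.2 : E3), p.1⟫ : ℝ) := by
      have h5 : Measurable fun p : E3 × E3 => (⟪p.2, p.1⟫ : ℝ) := by fun_prop
      exact h5.comp (measurable_fst.prodMk (measurable_subtype_coe.comp measurable_snd))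
    have h6 : StronglyMeasurable fun p : E3 × sphere (0 : E3) 1 =>
        cexp (-(2 * Real.pi * I * ((⟪(p.2 : E3), p.1⟫ : ℝ) : ℂ))) * f p.2 := by
      apply Measurable.stronglyMeasurable
      exact (Complex.measurable_exp.comp
        ((measurable_const.mul (Complex.measurable_ofReal.comp hin)).neg)).mul
        (hf.comp measurable_snd)
    have : IsFiniteMeasure sigma := by
      unfold Pool.Agent.TH277.CS.sigma
      infer_instance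
    exact ((h6.integral_prod_right' (ν := sigma)).measurable).enorm.pow_const q
  have hpt : ∀ ξ : E3, ‖Pool.Agent.TH277.CS.ft g ξ‖ₑ ^ q ≤ 4 ^ q *
      (‖Pool.Agent.TH277.CS.ft (gN g) ξ‖ₑ ^ q + ‖Pool.Agent.TH277.CS.ft (gZ g) ξ‖ₑ ^ q +
        ‖Pool.Agent.TH277.CS.ft (gS g) ξ‖ₑ ^ q) := by
    intro ξ
    rw [hadd ξ]
    refine (ENNReal.rpow_le_rpow ?_ hq0.le).trans (rpow_three _ _ _ q (by linarith))
    exact (enorm_add_le _ _).trans (add_le_add (enorm_add_le _ _) le_rfl)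
  have h4 := h1 g M hb
  have h5 := h2 g M hb hfin
  have h6 := h3 g M hb
  calc ∫⁻ ξ : E3, ‖Pool.Agent.TH277.CS.ft g ξ‖ₑ ^ q
      ≤ ∫⁻ ξ : E3, 4 ^ q * (‖Pool.Agent.TH277.CS.ft (gN g) ξ‖ₑ ^ q +
        ‖Pool.Agent.TH277.CS.ft (gZ g) ξ‖ₑ ^ q + ‖Pool.Agent.TH277.CS.ft (gS g) ξ‖ₑ ^ q) :=
        lintegral_mono hpt
    _ = 4 ^ q * ((∫⁻ ξ : E3, ‖Pool.Agent.TH277.CS.ft (gN g) ξ‖ₑ ^ q) +
        (∫⁻ ξ : E3, ‖Pool.Agent.TH277.CS.ft (gZ g) ξ‖ₑ ^ q) +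
        ∫⁻ ξ : E3, ‖Pool.Agent.TH277.CS.ft (gS g) ξ‖ₑ ^ q) := by
        rw [lintegral_const_mul' _ _ hf, lintegral_add_right _ (hmeas _ (gS_meas hb.mg)),
          lintegral_add_right _ (hmeas _ (gZ_meas hb.mg))]
    _ ≤ 4 ^ q * (C1 * II + C2 * II + C3 * II) := by gcongr
    _ = ((((4 : ℝ≥0∞) ^ q).toNNReal * (C1 + C2 + C3) : ℝ≥0) : ℝ≥0∞) * II := by
        rw [ENNReal.coe_mul, ENNReal.coe_toNNReal hf]
        push_cast
        ring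
    _ ≤ _ := by
        apply mul_le_mul' _ le_rfl
        exact_mod_cast le_max_right _ _

/-- the whole sphere, general axis -/
theorem whole (hS : StrongZ) (hV : AR.VarMod) (hC : CylZ) (q : ℝ) (hq : 3 < q) : ∃ C : ℝ≥0,
    ∀ (R : E3 ≃ₗᵢ[ℝ] E3) (g : sphere (0 : E3) 1 → ℂ) (M : ℝ → ℝ → ℝ≥0∞), Measurable g →
    Measurable (Function.uncurry M) → (∀ θ ∈ Ioo (-π) π, ∀ h ∈ Ioo (-1 : ℝ) 1,
      ‖g (rs R (Pz h θ))‖ₑ + eVariationOn (fun s => g (rs R (Pz s θ))) (Icc (-rr h) (rr h)) ≤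
        M h θ) →
    ∫⁻ ξ : E3, ‖Pool.Agent.TH277.CS.ft g ξ‖ₑ ^ q ≤
      C * ∫⁻ h in Ioo (-1 : ℝ) 1, ∫⁻ θ in Ioo (-π) π, M h θ ^ q := by
  obtain ⟨C, h1⟩ := whole0 hS hV hC q hq
  refine ⟨C, ?_⟩
  intro R g M hg hM h2
  rw [lint_rot R g hg q]
  exact h1 _ M ⟨hg.comp (rs_meas R), hM, h2⟩

end Pool.Agent.TH407.MZ
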