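import Mathlib
import Pool.Agent.TH407.MZ.W4
import Pool.Agent.TH267.MZ.LocKz
import Pool.Agent.TH751.MZ.Schurz
import Pool.Agent.TH81.MZ.LocL4z
import Pool.Agent.TH822.MZ.Comp
import Pool.Agent.TH986.MZ.Main5
import Pool.Agent.TH620.MZ.Stat
import Pool.Agent.TH620.MZ.Non
import Pool.Agent.TH938.MZ.TrivZ
import Pool.Agent.TH124.MZ.AllZ
import Pool.Agent.TH11.MZ.Ball
import Pool.Agent.TH902.MZ.Low
import Pool.Agent.TH365.MZ.Restr
import Pool.Agent.TH740.MZ.Strong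
import Pool.Agent.TH698.MZ.Cyl
set_option autoImplicit false

/-! The chain of all intermediate results. -/

namespace Pool.Agent.TH407.MZ

open MeasureTheory Set Complex Metric
open scoped ENNReal NNReal Real RealInnerProductSpace
open Pool.Agent.TH277.CS (E3 sigma)
open Pool.Agent.TH407.MV (rs)

/-- the strong estimate in the zone -/
theorem strongZ : StrongZ := by
  have h3 := Pool.Agent.TH81.MZ.locL4z_of Pool.Agent.TH267.MZ.locKz Pool.Agent.TH751.MZ.schurz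
  have h4 := Pool.Agent.TH822.MZ.compL4z_of h3
  have h5 := Pool.Agent.TH986.MZ5.mainZ_of h4
  have h9 := Pool.Agent.TH124.MZ.allZ_of h5 Pool.Agent.TH620.MZ.statZ Pool.Agent.TH620.MZ.nonZ
    Pool.Agent.TH407.MZ.trivZ
  have h11 := Pool.Agent.TH902.MZ.lowZ_of h9 Pool.Agent.TH777.VR.fourier_facts
  have h12 := Pool.Agent.TH365.MZ.restrZ_of Pool.Agent.TH777.VR.fourier_facts
    Pool.Agent.TH11.MZ.ballZ h11
  exact Pool.Agent.TH740.MZx.strongZ_of Pool.Agent.TH11.MZ.ballZ h12 Pool.Agent.TH634.VR.sum_lemma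

/-- the whole sphere, general axis -/
theorem sphere_all (q : ℝ) (hq : 3 < q) : ∃ C : ℝ≥0,
    ∀ (R : E3 ≃ₗᵢ[ℝ] E3) (g : sphere (0 : E3) 1 → ℂ) (M : ℝ → ℝ → ℝ≥0∞), Measurable g →
    Measurable (Function.uncurry M) → (∀ θ ∈ Ioo (-π) π, ∀ h ∈ Ioo (-1 : ℝ) 1,
      ‖g (rs R (Pz h θ))‖ₑ + eVariationOn (fun s => g (rs R (Pz s θ))) (Icc (-rr h) (rr h)) ≤
        M h θ) →
    ∫⁻ ξ : E3, ‖Pool.Agent.TH277.CS.ft g ξ‖ₑ ^ q ≤
      C * ∫⁻ h in Ioo (-1 : ℝ) 1, ∫⁻ θ in Ioo (-π) π, M h θ ^ q :=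
  whole strongZ Pool.Agent.TH634.VR.var_mod Pool.Agent.TH698.MZ.cylZ q hq

end Pool.Agent.TH407.MZ
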